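import Pool.Agent.KACG.Slopes

/-!
# Row S_LOB: lower bound of the energy in finite codimension (IMS localisation)
-/

set_option autoImplicit false

open scoped ComplexConjugate ContDiff
open MeasureTheory Filter Topology Set

namespace Pool.Agent.KACG.H34

open Pool.Agent.KACG

/-- the pointwise localisation inequality -/
lemma ims (φ φ' : ℝ) (u v : ℂ) :
    ‖((Real.cos φ * φ' : ℝ) : ℂ) * u + ((Real.sin φ : ℝ) : ℂ) * v‖ ^ 2 ≤
      ‖v‖ ^ 2 + φ' ^ 2 * ‖u‖ ^ 2 := by
  rw [Complex.sq_norm, Complex.sq_norm, Complex.sq_norm, Complex.normSq_apply,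
    Complex.normSq_apply, Complex.normSq_apply]
  simp only [Complex.add_re, Complex.mul_re, Complex.ofReal_re, Complex.ofReal_im, zero_mul,
    sub_zero, Complex.add_im, Complex.mul_im, add_zero]
  have h := Real.sin_sq_add_cos_sq φ
  have e1 : (Real.cos φ * φ' * u.re + Real.sin φ * v.re) ^ 2 +
      (Real.cos φ * v.re - Real.sin φ * φ' * u.re) ^ 2 = φ' ^ 2 * u.re ^ 2 + v.re ^ 2 := by
    linear_combination (φ' ^ 2 * u.re ^ 2 + v.re ^ 2) * h
  have e2 : (Real.cos φ * φ' * u.im + Real.sin φ * v.im) ^ 2 +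
      (Real.cos φ * v.im - Real.sin φ * φ' * u.im) ^ 2 = φ' ^ 2 * u.im ^ 2 + v.im ^ 2 := by
    linear_combination (φ' ^ 2 * u.im ^ 2 + v.im ^ 2) * h
  nlinarith [sq_nonneg (Real.cos φ * v.re - Real.sin φ * φ' * u.re),
    sq_nonneg (Real.cos φ * v.im - Real.sin φ * φ' * u.im)]

/-- a cutoff at one well -/
lemma cutoff (p δ : ℝ) (hδ : 0 < δ) : ∃ (χ : ℝ → ℝ) (C : ℝ), 0 ≤ C ∧ ContDiff ℝ ∞ χ ∧
    (∀ s, δ < |s - p| → χ =ᶠ[𝓝 s] 0) ∧ (∀ s, |s - p| ≤ δ / 2 → χ s ^ 2 = 1) ∧
    (∀ s, χ s ^ 2 ≤ 1) ∧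
    ∀ (s : ℝ) (u v : ℂ), ‖((deriv χ s : ℝ) : ℂ) * u + ((χ s : ℝ) : ℂ) * v‖ ^ 2 ≤
      ‖v‖ ^ 2 + C * ‖u‖ ^ 2 := by
  let η : ContDiffBump p := ⟨δ / 2, δ, by positivity, by linarith⟩
  have hη : ContDiff ℝ ∞ (fun s => η s) := η.contDiff
  have hφ : ContDiff ℝ ∞ (fun s => Real.pi / 2 * η s) := contDiff_const.mul hη
  have hcs : HasCompactSupport (fun s => Real.pi / 2 * η s) := η.hasCompactSupport.mul_left
  obtain ⟨B, hB⟩ := (hφ.continuous_deriv (by simp)).bounded_above_of_compact_support hcs.deriv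
  have hd : ∀ s, HasDerivAt (fun s => Real.pi / 2 * η s)
      (deriv (fun s => Real.pi / 2 * η s) s) s := fun s =>
    (hφ.differentiable (by simp) s).hasDerivAt
  refine ⟨fun s => Real.sin (Real.pi / 2 * η s), B ^ 2, sq_nonneg _,
    Real.contDiff_sin.comp hφ, ?_, ?_, ?_, ?_⟩
  · intro s hs
    have h1 : s ∉ tsupport η := by
      rw [η.tsupport_eq, Metric.mem_closedBall, Real.dist_eq, not_le]
      exact hs
    filter_upwards [notMem_tsupport_iff_eventuallyEq.mp h1] with x hx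
    rw [hx]
    simp
  · intro s hs
    have h1 : η s = 1 := η.one_of_mem_closedBall (by
      rw [Metric.mem_closedBall, Real.dist_eq]; exact hs)
    simp only
    rw [h1, mul_one, Real.sin_pi_div_two]
    norm_num
  · intro s
    exact Real.sin_sq_le_one _
  · intro s u v
    have h1 : deriv (fun s => Real.sin (Real.pi / 2 * η s)) s =
        Real.cos (Real.pi / 2 * η s) * deriv (fun s => Real.pi / 2 * η s) s := (hd s).sin.deriv
    rw [h1]
    refine (ims _ _ u v).trans ?_
    have h2 := hB s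
    rw [Real.norm_eq_abs] at h2
    have h3 : deriv (fun s => Real.pi / 2 * η s) s ^ 2 ≤ B ^ 2 := by
      rw [← sq_abs]
      exact pow_le_pow_left₀ (abs_nonneg _) h2 2
    have h4 : 0 ≤ ‖u‖ ^ 2 := sq_nonneg _
    nlinarith

/-- the energy of one well -/
lemma one_well (hHol : HolStmt) {L : ℝ} {κ : ℝ → ℝ} {c a p δ ε w₀ g S : ℝ} {n : ℕ}
    {χ : ℝ → ℝ} {u : ℝ → ℂ}
    (hκ : Continuous κ) (hχ : ContDiff ℝ ∞ χ) (hu : ContDiff ℝ ∞ u)
    (hδ0 : 0 < δ) (hδ1 : a < p - δ) (hδ2 : p + δ < a + L) (hε : ε < 1) (hw : 0 < w₀) (hS : 0 < S)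
    (hg : S ^ 2 = g)
    (hz : ∀ s, δ < |s - p| → χ =ᶠ[𝓝 s] 0)
    (hlow : ∀ s, |s - p| ≤ δ → (1 - ε) * w₀ * |s - p| ≤ |κ s - c|)
    (horth : ∀ j : Fin n, ∫ s in a..(a + L),
      u s * ((χ s * ((s - p) ^ (j : ℕ) * gs (S * (1 - ε) * w₀) (s - p)) : ℝ) : ℂ) = 0) :
    (2 * n + 1) * (S * (1 - ε) * w₀) * (∫ s in a..(a + L), χ s ^ 2 * ‖u s‖ ^ 2) ≤
      ∫ s in a..(a + L), (‖((deriv χ s : ℝ) : ℂ) * u s + ((χ s : ℝ) : ℂ) * deriv u s‖ ^ 2 +
        pot κ c g s * (χ s ^ 2 * ‖u s‖ ^ 2)) := by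
  obtain ⟨w, hwdef⟩ : ∃ w, w = S * (1 - ε) * w₀ := ⟨_, rfl⟩
  rw [← hwdef] at horth ⊢
  have hw' : 0 < w := by
    rw [hwdef]
    have : 0 < 1 - ε := by linarith
    positivity
  have hχd : ∀ s, HasDerivAt χ (deriv χ s) s := fun s =>
    (hχ.differentiable (by simp) s).hasDerivAt
  have hud : ∀ s, HasDerivAt u (deriv u s) s := fun s =>
    (hu.differentiable (by simp) s).hasDerivAt
  have hχc : Continuous (deriv χ) := hχ.continuous_deriv (by simp)
  have huc : Continuous (deriv u) := hu.continuous_deriv (by simp)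
  obtain ⟨F, hF⟩ : ∃ F : ℝ → ℂ, F = fun s => ((χ s : ℝ) : ℂ) * u s := ⟨_, rfl⟩
  have hFd : ∀ s, deriv F s = ((deriv χ s : ℝ) : ℂ) * u s + ((χ s : ℝ) : ℂ) * deriv u s := by
    intro s
    rw [hF]
    exact ((hχd s).ofReal_comp.mul (hud s)).deriv
  have hFs : ContDiff ℝ ∞ F := by
    rw [hF]
    exact (Complex.ofRealCLM.contDiff.comp hχ).mul hu
  have hF0 : ∀ s, δ < |s - p| → F s = 0 ∧ deriv F s = 0 := by
    intro s hs
    have h1 := hz s hs
    have h2 : F =ᶠ[𝓝 s] fun _ => 0 := by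
      filter_upwards [h1] with x hx
      rw [hF]
      simp [hx]
    refine ⟨h2.self_of_nhds, ?_⟩
    rw [h2.deriv_eq]
    simp
  have hFn : ∀ s, ‖F s‖ ^ 2 = χ s ^ 2 * ‖u s‖ ^ 2 := by
    intro s
    rw [hF]
    simp only
    rw [norm_mul, Complex.norm_real, Real.norm_eq_abs, mul_pow, sq_abs]
  have hsupp : ∀ G : ℝ → ℝ, (∀ s, δ < |s - p| → G s = 0) →
      Function.support G ⊆ Ioc a (a + L) := by
    intro G hG s hs
    have h1 : |s - p| ≤ δ := by
      by_contra hcon
      exact hs (hG s (not_le.mp hcon))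
    rw [abs_le] at h1
    exact ⟨by linarith [h1.1], by linarith [h1.2]⟩
  -- the translated function
  have hcomp : HasCompactSupport (fun x => F (x + p)) := by
    apply HasCompactSupport.of_support_subset_isCompact (isCompact_Icc (a := -δ) (b := δ))
    intro x hx
    by_contra hcon
    apply hx
    apply (hF0 (x + p) ?_).1
    rw [add_sub_cancel_right]
    by_contra h
    exact hcon (abs_le.mp (not_lt.mp h))
  have hfs : ContDiff ℝ ∞ (fun x => F (x + p)) := hFs.comp (contDiff_id.add contDiff_const)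
  have hor : ∀ j < n, ∫ x, (fun x => F (x + p)) x * ((x ^ j * gs w x : ℝ) : ℂ) = 0 := by
    intro j hj
    have h1 := horth ⟨j, hj⟩
    have h2 : ∫ x, (fun x => F (x + p)) x * ((x ^ j * gs w x : ℝ) : ℂ) =
        ∫ s, F s * (((s - p) ^ j * gs w (s - p) : ℝ) : ℂ) := by
      rw [← integral_add_right_eq_self (fun s => F s * (((s - p) ^ j * gs w (s - p) : ℝ) : ℂ)) p]
      simp only [add_sub_cancel_right]
    rw [h2, ← intervalIntegral.integral_eq_integral_of_support_subset (a := a) (b := a + L)]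
    · rw [← h1]
      apply intervalIntegral.integral_congr
      intro s _
      simp only [hF]
      push_cast
      ring
    · intro s hs
      have h3 : |s - p| ≤ δ := by
        by_contra hcon
        apply hs
        simp only
        rw [(hF0 s (not_le.mp hcon)).1, zero_mul]
      rw [abs_le] at h3
      exact ⟨by linarith [h3.1], by linarith [h3.2]⟩
  have h1 := hHol w n hw' (fun x => F (x + p)) hfs hcomp hor
  have h2 : ∫ x, ‖F (x + p)‖ ^ 2 = ∫ s in a..(a + L), χ s ^ 2 * ‖u s‖ ^ 2 := by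
    rw [integral_add_right_eq_self (fun s => ‖F s‖ ^ 2) p,
      ← intervalIntegral.integral_eq_integral_of_support_subset (a := a) (b := a + L)
        (hsupp _ fun s hs => by rw [(hF0 s hs).1]; simp)]
    exact intervalIntegral.integral_congr fun s _ => hFn s
  have h3 : ho w (fun x => F (x + p)) =
      ∫ s in a..(a + L), (‖deriv F s‖ ^ 2 + w ^ 2 * (s - p) ^ 2 * ‖F s‖ ^ 2) := by
    unfold ho
    rw [intervalIntegral.integral_eq_integral_of_support_subset (a := a) (b := a + L)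
        (hsupp _ fun s hs => by rw [(hF0 s hs).1, (hF0 s hs).2]; simp),
      ← integral_add_right_eq_self
        (fun s => ‖deriv F s‖ ^ 2 + w ^ 2 * (s - p) ^ 2 * ‖F s‖ ^ 2) p]
    simp only [add_sub_cancel_right]
    refine integral_congr_ae (Eventually.of_forall fun x => ?_)
    simp only
    rw [deriv_comp_add_const]
  rw [h2, h3] at h1
  refine h1.trans ?_
  have haL : a ≤ a + L := by linarith
  have hcF : Continuous F := hFs.continuous
  have hcF' : Continuous (deriv F) := hFs.continuous_deriv (by simp)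
  apply intervalIntegral.integral_mono_on haL
  · apply Continuous.intervalIntegrable
    fun_prop
  · apply Continuous.intervalIntegrable
    have h4 := hχ.continuous
    have h5 := hu.continuous
    unfold pot
    fun_prop
  · intro s _
    rw [hFd s, hFn s]
    apply add_le_add le_rfl
    by_cases hs : |s - p| ≤ δ
    · apply mul_le_mul_of_nonneg_right _ (by positivity)
      have h4 := hlow s hs
      have h5 : ((1 - ε) * w₀ * |s - p|) ^ 2 ≤ |κ s - c| ^ 2 := by
        apply pow_le_pow_left₀ _ h4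
        have : 0 < 1 - ε := by linarith
        positivity
      rw [sq_abs] at h5
      unfold pot
      rw [← hg, hwdef]
      have h6 : (S * (1 - ε) * w₀) ^ 2 * (s - p) ^ 2 = S ^ 2 * ((1 - ε) * w₀ * |s - p|) ^ 2 := by
        rw [mul_pow _ |s - p|, sq_abs]
        ring
      rw [h6]
      exact mul_le_mul_of_nonneg_left h5 (sq_nonneg _)
    · have h4 := (hz s (not_le.mp hs)).self_of_nhds
      rw [h4]
      simp

theorem lob (hHol : HolStmt) : LobStmt := by
  intro L κ c a r p hW e n he hn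
  have hL := hW.pos
  have hκc : Continuous κ := hW.sm.continuous
  have hw : ∀ i, 0 < |deriv κ (p i)| := fun i => abs_pos.mpr (hW.reg i)
  -- choice of ε
  obtain ⟨ε, hε0, hε1, hεn⟩ : ∃ ε : ℝ, 0 < ε ∧ ε < 1 ∧
      ∀ i, e + ε ≤ (2 * (n i : ℝ) + 1) * ((1 - ε) * |deriv κ (p i)|) := by
    have h1 : ∀ i, ∀ᶠ ε in 𝓝[>] (0 : ℝ),
        e + ε < (2 * (n i : ℝ) + 1) * ((1 - ε) * |deriv κ (p i)|) := by
      intro i
      have h2 : ContinuousAt (fun ε : ℝ =>
          (2 * (n i : ℝ) + 1) * ((1 - ε) * |deriv κ (p i)|) - (e + ε)) 0 := by fun_prop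
      have h3 : 0 < (2 * (n i : ℝ) + 1) * ((1 - (0 : ℝ)) * |deriv κ (p i)|) - (e + 0) := by
        have := hn i
        simp only [sub_zero, one_mul, add_zero]
        linarith
      have h4 := h2.eventually (lt_mem_nhds h3)
      filter_upwards [h4.filter_mono nhdsWithin_le_nhds] with x hx
      linarith
    have h2 : ∀ᶠ ε in 𝓝[>] (0 : ℝ), ε < 1 := by
      filter_upwards [Ioo_mem_nhdsGT (show (0 : ℝ) < 1 by norm_num)] with x hx using hx.2
    have h3 : ∀ᶠ ε in 𝓝[>] (0 : ℝ), 0 < ε := self_mem_nhdsWithin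
    obtain ⟨ε, h4, h5, h6⟩ := (h3.and (h2.and (eventually_all.mpr h1))).exists
    exact ⟨ε, h4, h5, fun i => (h6 i).le⟩
  -- choice of δ
  obtain ⟨δ, hδ0, hδ1, hδ2, hδ3⟩ : ∃ δ : ℝ, 0 < δ ∧
      (∀ i s, |s - p i| ≤ δ → (1 - ε) * |deriv κ (p i)| * |s - p i| ≤ |κ s - c|) ∧
      (∀ i, a < p i - δ ∧ p i + δ < a + L) ∧
      ∀ i j, i ≠ j → 2 * δ < |p i - p j| := by
    have h1 : ∀ i, ∀ᶠ δ in 𝓝[>] (0 : ℝ), ∀ s, |s - p i| ≤ δ →
        (1 - ε) * |deriv κ (p i)| * |s - p i| ≤ |κ s - c| := by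
      intro i
      have hd : HasDerivAt κ (deriv κ (p i)) (p i) :=
        (hW.sm.differentiable (by simp) (p i)).hasDerivAt
      have h2 := (hasDerivAt_iff_isLittleO.mp hd).def
        (show 0 < ε * |deriv κ (p i)| from mul_pos hε0 (hw i))
      rw [Metric.eventually_nhds_iff] at h2
      obtain ⟨δ₁, hδ₁, h3⟩ := h2
      filter_upwards [Ioo_mem_nhdsGT hδ₁] with δ hδ s hs
      have h4 := h3 (y := s) (by rw [Real.dist_eq]; exact lt_of_le_of_lt hs hδ.2)
      rw [hW.val i, Real.norm_eq_abs, Real.norm_eq_abs, smul_eq_mul] at h4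
      have h5 := abs_sub_abs_le_abs_sub ((s - p i) * deriv κ (p i)) (κ s - c)
      rw [abs_sub_comm ((s - p i) * deriv κ (p i)) (κ s - c), abs_mul] at h5
      linarith
    have h2 : ∀ i, ∀ᶠ δ in 𝓝[>] (0 : ℝ), a < p i - δ ∧ p i + δ < a + L := by
      intro i
      have h3 := hW.mem i
      have h4 : (0 : ℝ) < p i - a := by linarith [h3.1]
      have h5 : (0 : ℝ) < a + L - p i := by linarith [h3.2]
      filter_upwards [Ioo_mem_nhdsGT h4, Ioo_mem_nhdsGT h5] with δ h6 h7
      exact ⟨by linarith [h6.2], by linarith [h7.2]⟩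
    have h3 : ∀ i j, ∀ᶠ δ in 𝓝[>] (0 : ℝ), i ≠ j → 2 * δ < |p i - p j| := by
      intro i j
      by_cases hij : i = j
      · exact Eventually.of_forall fun δ h => absurd hij h
      · have h4 : 0 < |p i - p j| / 2 := by
          have := abs_pos.mpr (sub_ne_zero.mpr (fun h => hij (hW.inj h)))
          linarith
        filter_upwards [Ioo_mem_nhdsGT h4] with δ h5 _
        linarith [h5.2]
    have h4 : ∀ᶠ δ in 𝓝[>] (0 : ℝ), 0 < δ := self_mem_nhdsWithin
    obtain ⟨δ, h5, h6, h7, h8⟩ := (h4.and ((eventually_all.mpr h1).and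
      ((eventually_all.mpr h2).and (eventually_all.mpr fun i =>
        eventually_all.mpr fun j => h3 i j)))).exists
    exact ⟨δ, h5, h6, h7, h8⟩
  -- cutoffs
  choose χ C hC0 hχs hχ0 hχ1 hχle hims using fun i => cutoff (p i) δ hδ0
  obtain ⟨Ct, hCt⟩ : ∃ Ct, Ct = ∑ i, C i := ⟨_, rfl⟩
  have hCt0 : 0 ≤ Ct := by rw [hCt]; exact Finset.sum_nonneg fun i _ => hC0 i
  have hCi : ∀ i, C i ≤ Ct := by
    intro i
    rw [hCt]
    exact Finset.single_le_sum (fun j _ => hC0 j) (Finset.mem_univ i)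
  -- away from the wells
  obtain ⟨d, hd0, hd⟩ : ∃ d : ℝ, 0 < d ∧ ∀ s ∈ Icc a (a + L),
      (∀ i, δ / 2 ≤ |s - p i|) → d ≤ |κ s - c| := by
    obtain ⟨K, hK⟩ : ∃ K : Set ℝ, K = Icc a (a + L) ∩ {s | ∀ i, δ / 2 ≤ |s - p i|} := ⟨_, rfl⟩
    have hKc : IsCompact K := by
      rw [hK]
      apply isCompact_Icc.inter_right
      rw [Set.ofPred_forall]
      exact isClosed_iInter fun i => isClosed_le continuous_const
        (continuous_id.sub continuous_const).abs
    rcases K.eq_empty_or_nonempty with h | h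
    · refine ⟨1, one_pos, fun s hs h1 => ?_⟩
      have : s ∈ K := by rw [hK]; exact ⟨hs, h1⟩
      rw [h] at this
      exact absurd this (notMem_empty s)
    · obtain ⟨x, hx, hmin⟩ := hKc.exists_isMinOn h (f := fun s => |κ s - c|)
        (hκc.sub continuous_const).abs.continuousOn
      refine ⟨|κ x - c|, ?_, fun s hs h1 => hmin (by rw [hK]; exact ⟨hs, h1⟩)⟩
      rw [abs_pos, sub_ne_zero]
      intro hxc
      rw [hK] at hx
      obtain ⟨i, hi⟩ := hW.all x hx.1 hxc
      have h2 := hx.2 i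
      rw [hi, sub_self, abs_zero] at h2
      linarith
  refine ⟨max 1 (max ((Ct / ε) ^ 2) (((e + ε) / d ^ 2) ^ 2)), lt_max_of_lt_left one_pos, ?_⟩
  intro g hg
  have hg1 : 1 ≤ g := (le_max_left _ _).trans hg
  have hg2 : (Ct / ε) ^ 2 ≤ g := (le_max_left _ _).trans ((le_max_right _ _).trans hg)
  have hg3 : ((e + ε) / d ^ 2) ^ 2 ≤ g := (le_max_right _ _).trans ((le_max_right _ _).trans hg)
  obtain ⟨S, hS⟩ : ∃ S, S = Real.sqrt g := ⟨_, rfl⟩
  have hS0 : 0 < S := by rw [hS]; exact Real.sqrt_pos.mpr (by linarith)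
  have hSg : S ^ 2 = g := by rw [hS]; exact Real.sq_sqrt (by linarith)
  have hSC : Ct ≤ ε * S := by
    have h1 : Ct / ε ≤ S := by rw [hS]; exact Real.le_sqrt_of_sq_le hg2
    rw [div_le_iff₀ hε0] at h1
    linarith
  have hSd : (e + ε) * S ≤ g * d ^ 2 := by
    have h1 : (e + ε) / d ^ 2 ≤ S := by rw [hS]; exact Real.le_sqrt_of_sq_le hg3
    rw [div_le_iff₀ (by positivity)] at h1
    rw [← hSg]
    nlinarith
  refine ⟨fun j => fun s => ((χ j.1 s * ((s - p j.1) ^ (j.2 : ℕ) *
    gs (S * (1 - ε) * |deriv κ (p j.1)|) (s - p j.1)) : ℝ) : ℂ), ?_, ?_⟩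
  · intro j
    have h1 := (hχs j.1).continuous
    unfold gs
    fun_prop
  intro u hu horth
  have huc : Continuous u := hu.1.continuous
  have hudc : Continuous (deriv u) := hu.1.continuous_deriv (by simp)
  have haL : a ≤ a + L := by linarith
  -- periodicity of the integrands
  have hun : ∀ s, ‖u (s + L)‖ = ‖u s‖ := by
    intro s
    rw [hu.2 s, norm_mul, Complex.norm_I, one_mul]
  have hudn : ∀ s, ‖deriv u (s + L)‖ = ‖deriv u s‖ := by
    intro s
    have h1 : (fun x => u (x + L)) = fun x => Complex.I * u x := funext hu.2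
    rw [← deriv_comp_add_const, h1, deriv_const_mul_field, norm_mul, Complex.norm_I, one_mul]
  have hmass : mass L u = ∫ s in a..(a + L), ‖u s‖ ^ 2 := by
    have h1 : Function.Periodic (fun s => ‖u s‖ ^ 2) L := fun s => by simp only [hun]
    have h2 := h1.intervalIntegral_add_eq 0 a
    rw [zero_add] at h2
    exact h2
  have henr : enr L (pot κ c g) u = ∫ s in a..(a + L), (‖deriv u s‖ ^ 2 +
      pot κ c g s * ‖u s‖ ^ 2) := by
    have h1 : Function.Periodic (fun s => ‖deriv u s‖ ^ 2 + pot κ c g s * ‖u s‖ ^ 2) L :=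
      fun s => by simp only [hun, hudn, pot, hW.per s]
    have h2 := h1.intervalIntegral_add_eq 0 a
    rw [zero_add] at h2
    exact h2
  -- energies of the wells
  have hwell : ∀ i, (e + ε) * S * (∫ s in a..(a + L), χ i s ^ 2 * ‖u s‖ ^ 2) ≤
      ∫ s in a..(a + L), (‖((deriv (χ i) s : ℝ) : ℂ) * u s + ((χ i s : ℝ) : ℂ) * deriv u s‖ ^ 2 +
        pot κ c g s * (χ i s ^ 2 * ‖u s‖ ^ 2)) := by
    intro i
    have h1 := one_well (n := n i) hHol hκc (hχs i) hu.1 hδ0 (hδ2 i).1 (hδ2 i).2 hε1 (hw i) hS0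
      hSg (hχ0 i) (hδ1 i) (fun j => horth ⟨i, j⟩)
    refine le_trans ?_ h1
    apply mul_le_mul_of_nonneg_right
    · have h2 := hεn i
      nlinarith
    · apply intervalIntegral.integral_nonneg haL
      intro s _
      positivity
  -- the pointwise inequality
  have hpt : ∀ s ∈ Icc a (a + L),
      (∑ i, (‖((deriv (χ i) s : ℝ) : ℂ) * u s + ((χ i s : ℝ) : ℂ) * deriv u s‖ ^ 2 +
        pot κ c g s * (χ i s ^ 2 * ‖u s‖ ^ 2))) +
        g * d ^ 2 * (‖u s‖ ^ 2 - ∑ i, χ i s ^ 2 * ‖u s‖ ^ 2) - Ct * ‖u s‖ ^ 2 ≤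
      ‖deriv u s‖ ^ 2 + pot κ c g s * ‖u s‖ ^ 2 := by
    intro s hs
    have hus : 0 ≤ ‖u s‖ ^ 2 := sq_nonneg _
    have hg0 : 0 ≤ g := by linarith
    by_cases hcase : ∃ i, |s - p i| ≤ δ
    · obtain ⟨i, hi⟩ := hcase
      have hother : ∀ j, j ≠ i → χ j s = 0 ∧ deriv (χ j) s = 0 := by
        intro j hj
        have h1 : δ < |s - p j| := by
          have h2 := hδ3 i j (Ne.symm hj)
          have h3 : |p i - p j| ≤ |s - p i| + |s - p j| := by
            have h4 := abs_sub_le (p i) s (p j)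
            rw [abs_sub_comm (p i) s] at h4
            exact h4
          linarith
        have h2 := hχ0 j s h1
        refine ⟨h2.self_of_nhds, ?_⟩
        rw [h2.deriv_eq]
        simp
      rw [Finset.sum_eq_single i, Finset.sum_eq_single i]
      · have h1 := hims i s (u s) (deriv u s)
        have h2 : C i * ‖u s‖ ^ 2 ≤ Ct * ‖u s‖ ^ 2 := mul_le_mul_of_nonneg_right (hCi i) hus
        have h3 : g * d ^ 2 * (‖u s‖ ^ 2 - χ i s ^ 2 * ‖u s‖ ^ 2) ≤
            pot κ c g s * (‖u s‖ ^ 2 - χ i s ^ 2 * ‖u s‖ ^ 2) := by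
          by_cases h4 : |s - p i| ≤ δ / 2
          · rw [hχ1 i s h4, one_mul, sub_self, mul_zero, mul_zero]
          · have h5 : d ≤ |κ s - c| := by
              apply hd s hs
              intro j
              by_cases hj : j = i
              · rw [hj]; exact (not_le.mp h4).le
              · have h6 := hδ3 i j (Ne.symm hj)
                have h7 : |p i - p j| ≤ |s - p i| + |s - p j| := by
                  have h8 := abs_sub_le (p i) s (p j)
                  rw [abs_sub_comm (p i) s] at h8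
                  exact h8
                linarith
            apply mul_le_mul_of_nonneg_right
            · unfold pot
              apply mul_le_mul_of_nonneg_left _ hg0
              rw [← sq_abs (κ s - c)]
              exact pow_le_pow_left₀ hd0.le h5 2
            · have h6 := hχle i s
              nlinarith
        nlinarith
      · intro j _ hj
        rw [(hother j hj).1]; simp
      · intro h; exact absurd (Finset.mem_univ i) h
      · intro j _ hj
        rw [(hother j hj).1, (hother j hj).2]; simp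
      · intro h; exact absurd (Finset.mem_univ i) h
    · push Not at hcase
      have hother : ∀ j, χ j s = 0 ∧ deriv (χ j) s = 0 := by
        intro j
        have h2 := hχ0 j s (hcase j)
        refine ⟨h2.self_of_nhds, ?_⟩
        rw [h2.deriv_eq]
        simp
      rw [Finset.sum_eq_zero, Finset.sum_eq_zero]
      · have h5 : d ≤ |κ s - c| := by
          apply hd s hs
          intro j
          have := hcase j
          linarith
        have h6 : g * d ^ 2 ≤ pot κ c g s := by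
          unfold pot
          apply mul_le_mul_of_nonneg_left _ hg0
          rw [← sq_abs (κ s - c)]
          exact pow_le_pow_left₀ hd0.le h5 2
        have h7 := mul_le_mul_of_nonneg_right h6 hus
        have h8 : 0 ≤ ‖deriv u s‖ ^ 2 := sq_nonneg _
        have h9 : 0 ≤ Ct * ‖u s‖ ^ 2 := mul_nonneg hCt0 hus
        linarith
      · intro j _
        rw [(hother j).1]; simp
      · intro j _
        rw [(hother j).1, (hother j).2]; simp
  -- integrate
  have hcont1 : ∀ i, Continuous fun s => χ i s ^ 2 * ‖u s‖ ^ 2 := fun i => by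
    have := (hχs i).continuous
    fun_prop
  have hcont2 : ∀ i, Continuous fun s =>
      (‖((deriv (χ i) s : ℝ) : ℂ) * u s + ((χ i s : ℝ) : ℂ) * deriv u s‖ ^ 2 +
        pot κ c g s * (χ i s ^ 2 * ‖u s‖ ^ 2)) := fun i => by
    have h1 := (hχs i).continuous
    have h2 : Continuous (deriv (χ i)) := (hχs i).continuous_deriv (by simp)
    unfold pot
    fun_prop
  have hcont3 : Continuous fun s => ‖u s‖ ^ 2 := by fun_prop
  have hcont4 : Continuous fun s => ‖deriv u s‖ ^ 2 + pot κ c g s * ‖u s‖ ^ 2 := by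
    unfold pot
    fun_prop
  have hint : (∑ i, ∫ s in a..(a + L),
      (‖((deriv (χ i) s : ℝ) : ℂ) * u s + ((χ i s : ℝ) : ℂ) * deriv u s‖ ^ 2 +
        pot κ c g s * (χ i s ^ 2 * ‖u s‖ ^ 2))) +
      g * d ^ 2 * ((∫ s in a..(a + L), ‖u s‖ ^ 2) -
        ∑ i, ∫ s in a..(a + L), χ i s ^ 2 * ‖u s‖ ^ 2) -
      Ct * (∫ s in a..(a + L), ‖u s‖ ^ 2) ≤
      ∫ s in a..(a + L), (‖deriv u s‖ ^ 2 + pot κ c g s * ‖u s‖ ^ 2) := by
    obtain ⟨A, hA⟩ : ∃ A : ℝ → ℝ, A = fun s =>
      ∑ i, (‖((deriv (χ i) s : ℝ) : ℂ) * u s + ((χ i s : ℝ) : ℂ) * deriv u s‖ ^ 2 +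
        pot κ c g s * (χ i s ^ 2 * ‖u s‖ ^ 2)) := ⟨_, rfl⟩
    obtain ⟨B, hB⟩ : ∃ B : ℝ → ℝ, B = fun s => ∑ i, χ i s ^ 2 * ‖u s‖ ^ 2 := ⟨_, rfl⟩
    obtain ⟨D, hD⟩ : ∃ D : ℝ → ℝ, D = fun s => ‖u s‖ ^ 2 := ⟨_, rfl⟩
    have cA : Continuous A := by rw [hA]; exact continuous_finsetSum _ fun i _ => hcont2 i
    have cB : Continuous B := by rw [hB]; exact continuous_finsetSum _ fun i _ => hcont1 i
    have cD : Continuous D := by rw [hD]; exact hcont3
    have eA : ∑ i, ∫ s in a..(a + L),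
        (‖((deriv (χ i) s : ℝ) : ℂ) * u s + ((χ i s : ℝ) : ℂ) * deriv u s‖ ^ 2 +
          pot κ c g s * (χ i s ^ 2 * ‖u s‖ ^ 2)) = ∫ s in a..(a + L), A s := by
      rw [hA, intervalIntegral.integral_finsetSum
        (fun i _ => (hcont2 i).intervalIntegrable _ _)]
    have eB : ∑ i, ∫ s in a..(a + L), χ i s ^ 2 * ‖u s‖ ^ 2 = ∫ s in a..(a + L), B s := by
      rw [hB, intervalIntegral.integral_finsetSum
        (fun i _ => (hcont1 i).intervalIntegrable _ _)]
    have eD : ∫ s in a..(a + L), ‖u s‖ ^ 2 = ∫ s in a..(a + L), D s := by rw [hD]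
    have iA : IntervalIntegrable A volume a (a + L) := cA.intervalIntegrable _ _
    have iB : IntervalIntegrable B volume a (a + L) := cB.intervalIntegrable _ _
    have iD : IntervalIntegrable D volume a (a + L) := cD.intervalIntegrable _ _
    have hmono : ∫ s in a..(a + L), (A s + g * d ^ 2 * (D s - B s) - Ct * D s) ≤
        ∫ s in a..(a + L), (‖deriv u s‖ ^ 2 + pot κ c g s * ‖u s‖ ^ 2) := by
      apply intervalIntegral.integral_mono_on haL
      · exact ((iA.add ((iD.sub iB).const_mul _)).sub (iD.const_mul _))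
      · exact hcont4.intervalIntegrable _ _
      · intro s hs
        rw [hA, hB, hD]
        exact hpt s hs
    rw [intervalIntegral.integral_sub (iA.add ((iD.sub iB).const_mul _)) (iD.const_mul _),
      intervalIntegral.integral_add iA ((iD.sub iB).const_mul _),
      intervalIntegral.integral_const_mul, intervalIntegral.integral_const_mul,
      intervalIntegral.integral_sub iD iB] at hmono
    rw [eA, eB, eD]
    exact hmono
  have hR : 0 ≤ (∫ s in a..(a + L), ‖u s‖ ^ 2) -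
      ∑ i, ∫ s in a..(a + L), χ i s ^ 2 * ‖u s‖ ^ 2 := by
    rw [← intervalIntegral.integral_finsetSum (fun i _ => (hcont1 i).intervalIntegrable _ _),
      ← intervalIntegral.integral_sub (hcont3.intervalIntegrable _ _)
        ((continuous_finsetSum _ fun i _ => hcont1 i).intervalIntegrable _ _)]
    apply intervalIntegral.integral_nonneg haL
    intro s _
    have hus : 0 ≤ ‖u s‖ ^ 2 := sq_nonneg _
    rw [← Finset.sum_mul]
    have h1 : ∑ i, χ i s ^ 2 ≤ 1 := by
      by_cases hcase : ∃ i, |s - p i| ≤ δ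
      · obtain ⟨i, hi⟩ := hcase
        rw [Finset.sum_eq_single i]
        · exact hχle i s
        · intro j _ hj
          have h1 : δ < |s - p j| := by
            have h2 := hδ3 i j (Ne.symm hj)
            have h3 : |p i - p j| ≤ |s - p i| + |s - p j| := by
              have h4 := abs_sub_le (p i) s (p j)
              rw [abs_sub_comm (p i) s] at h4
              exact h4
            linarith
          rw [(hχ0 j s h1).self_of_nhds]
          simp
        · intro h; exact absurd (Finset.mem_univ i) h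
      · push Not at hcase
        rw [Finset.sum_eq_zero]
        · norm_num
        · intro j _
          rw [(hχ0 j s (hcase j)).self_of_nhds]
          simp
    nlinarith
  have hsum : (e + ε) * S * ∑ i, (∫ s in a..(a + L), χ i s ^ 2 * ‖u s‖ ^ 2) ≤
      ∑ i, ∫ s in a..(a + L),
        (‖((deriv (χ i) s : ℝ) : ℂ) * u s + ((χ i s : ℝ) : ℂ) * deriv u s‖ ^ 2 +
          pot κ c g s * (χ i s ^ 2 * ‖u s‖ ^ 2)) := by
    rw [Finset.mul_sum]
    exact Finset.sum_le_sum fun i _ => hwell i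
  have hM : 0 ≤ ∫ s in a..(a + L), ‖u s‖ ^ 2 := by
    apply intervalIntegral.integral_nonneg haL
    intro s _
    positivity
  rw [hmass, henr, ← hS]
  have h1 := mul_le_mul_of_nonneg_right hSd hR
  have h2 := mul_le_mul_of_nonneg_right hSC hM
  nlinarith

end Pool.Agent.KACG.H34
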